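import Pool.Agent.Y703.CQ.Cor
import Pool.Agent.Y948.CQ.C2

/-!
# The size of the class of the discriminants of one sign, and the proportion
-/

set_option autoImplicit false

open scoped Classical

namespace Pool.Agent.V11291.F9

open Finset Filter Topology
open Pool.Agent
open Pool.Agent.Y687.MQ (AdmD matD)
open Pool.Agent.Y703.CQ

/-- the set of the parities that corresponds to a sign -/
def KS (s : ℤ) : Finset ℕ := if s = 1 then {0} else {1}

theorem ok_KS (s : ℤ) : Ok {3, 5} (KS s) := by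
  unfold KS
  split_ifs
  · exact ⟨Or.inr rfl, Or.inl (by decide)⟩
  · exact ⟨Or.inr rfl, Or.inr ⟨by decide, by decide⟩⟩

theorem sgn_iff {s : ℤ} (hs : s = 1 ∨ s = -1) {D : ℤ} (h : AdmD D) :
    0 < s * D ↔ (D.natAbs.primeFactors.filter fun p => p % 8 = 3).card % 2 ∈ KS s := by
  have h1 := sign_iff h
  have h0 := h.2.1
  rcases hs with rfl | rfl
  · unfold KS
    rw [if_pos rfl, Finset.mem_singleton, ← h1]
    constructor <;> intro h2 <;> omega
  · unfold KS
    rw [if_neg (by norm_num), Finset.mem_singleton]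
    constructor
    · intro h2
      by_contra h3
      have h4 := h1.2 (by omega)
      omega
    · intro h2
      by_contra h3
      have h4 := h1.1 (by omega)
      omega

/-- the number of the `D` of the class with `|D| ≤ X`, of the sign of `s`, with `Q D` -/
noncomputable def cnt (s : ℤ) (Q : ℤ → Prop) (X : ℕ) : ℕ :=
  Nat.card {D : ℤ // |D| ≤ X ∧ 0 < s * D ∧ AdmD D ∧ Q D}

theorem cnt_eq {s : ℤ} (hs : s = 1 ∨ s = -1) (Q : ℤ → Prop) (X : ℕ) :
    cnt s Q X = ((Finset.Icc (-(X : ℤ)) X).filter fun D => (AdmD D ∧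
        (D.natAbs.primeFactors.filter fun p => p % 8 = 3).card % 2 ∈ KS s) ∧ Q D).card := by
  unfold cnt
  refine Nat.subtype_card _ fun D => ?_
  rw [Finset.mem_filter, Finset.mem_Icc, abs_le]
  constructor
  · rintro ⟨h1, ⟨h2, h3⟩, h4⟩
    exact ⟨h1, (sgn_iff hs h2).2 h3, h2, h4⟩
  · rintro ⟨h1, h2, h3, h4⟩
    exact ⟨h1, ⟨h3, (sgn_iff hs h3).1 h2⟩, h4⟩

theorem tot_eq {s : ℤ} (hs : s = 1 ∨ s = -1) (X : ℕ) :
    cnt s (fun _ => True) X = (SS {3, 5} (KS s) X).card := by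
  rw [cnt_eq hs]
  have h1 := count (KS s) (fun _ => True) X
  have h2 := Pool.Agent.Y514.CQ.card_eq {3, 5} (KS s) X (fun _ => True)
  rw [h1, h2, Finset.filter_true]

/-- the number of the `D` of the class is at least `c X (log X)^(-5/8)` -/
theorem low {s : ℤ} (hs : s = 1 ∨ s = -1) : ∃ (c : ℝ) (X₀ : ℕ), 0 < c ∧ ∀ X : ℕ, X₀ ≤ X →
    c * X * (Real.log X) ^ (-(5 / 8) : ℝ) ≤ (cnt s (fun _ => True) X : ℝ) := by
  obtain ⟨c, X₀, hc, h⟩ := Pool.Agent.Y302.CQ.t_LOW Pool.Agent.Y405.CQ.t_MER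
    Pool.Agent.Y302.CQ.t_CHE {3, 5} (KS s) (ok_KS s)
  refine ⟨c, X₀, hc, fun X hX => ?_⟩
  have h1 := h X hX
  have e : (-1 + dl {3, 5} : ℝ) = -(5 / 8) := by
    unfold dl
    rw [Finset.card_pair (by norm_num)]
    norm_num
  rw [e] at h1
  rw [tot_eq hs]
  exact h1

theorem tot_atTop {s : ℤ} (hs : s = 1 ∨ s = -1) :
    Tendsto (fun X : ℕ => (cnt s (fun _ => True) X : ℝ)) atTop atTop := by
  obtain ⟨c, X₀, hc, h⟩ := low hs
  have h1 : Tendsto (fun X : ℕ => c * (X : ℝ) ^ (3 / 8 : ℝ)) atTop atTop :=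
    Tendsto.const_mul_atTop hc ((tendsto_rpow_atTop (by norm_num)).comp tendsto_natCast_atTop_atTop)
  refine tendsto_atTop_mono' _ ?_ h1
  filter_upwards [eventually_ge_atTop X₀, eventually_ge_atTop 2] with X hX hX2
  refine le_trans ?_ (h X hX)
  have hXR : (2 : ℝ) ≤ X := by exact_mod_cast hX2
  have hX0 : (0 : ℝ) < X := by linarith
  have hl : 0 < Real.log X := Real.log_pos (by linarith)
  have hl2 : Real.log X ≤ X := (Real.log_le_sub_one_of_pos hX0).trans (by linarith)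
  have h3 : (X : ℝ) ^ (-(5 / 8) : ℝ) ≤ (Real.log X) ^ (-(5 / 8) : ℝ) :=
    Real.rpow_le_rpow_of_nonpos hl hl2 (by norm_num)
  calc c * (X : ℝ) ^ (3 / 8 : ℝ) = c * X * (X : ℝ) ^ (-(5 / 8) : ℝ) := by
        rw [mul_assoc]
        congr 1
        nth_rewrite 2 [← Real.rpow_one (X : ℝ)]
        rw [← Real.rpow_add hX0]
        norm_num
    _ ≤ _ := by gcongr

theorem prop0 {s : ℤ} (hs : s = 1 ∨ s = -1) : Tendsto (fun X : ℕ =>
    (cnt s (fun D => (matD D).det ≠ 0) X : ℝ) / (cnt s (fun _ => True) X : ℝ)) atTop (𝓝 c2) := by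
  refine (prop_K (ok_KS s)).congr fun X => ?_
  rw [cnt_eq hs, cnt_eq hs]
  simp only [and_true]
  congr!

/-- the proportion, for a property which is equivalent to the criterion for all `D ≠ 1` -/
theorem prop1 {s : ℤ} (hs : s = 1 ∨ s = -1) (Q : ℤ → Prop)
    (hQ : ∀ D : ℤ, AdmD D → D ≠ 1 → (Q D ↔ (matD D).det ≠ 0)) : Tendsto (fun X : ℕ =>
    (cnt s Q X : ℝ) / (cnt s (fun _ => True) X : ℝ)) atTop (𝓝 c2) := by
  have h0 := prop0 hs
  have hT := tot_atTop hs
  have h1 : Tendsto (fun X : ℕ => (1 : ℝ) / (cnt s (fun _ => True) X : ℝ)) atTop (𝓝 0) :=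
    hT.const_div_atTop 1
  have hd : ∀ X : ℕ, |(cnt s Q X : ℝ) - cnt s (fun D => (matD D).det ≠ 0) X| ≤ 1 := by
    intro X
    have key : ∀ P P' : ℤ → Prop, (∀ D : ℤ, AdmD D → D ≠ 1 → (P D → P' D)) →
        cnt s P X ≤ cnt s P' X + 1 := by
      intro P P' h
      rw [cnt_eq hs, cnt_eq hs]
      refine (Finset.card_le_card (t := insert 1 ((Finset.Icc (-(X : ℤ)) X).filter fun D => (AdmD D ∧
        (D.natAbs.primeFactors.filter fun p => p % 8 = 3).card % 2 ∈ KS s) ∧ P' D)) ?_).trans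
        (Finset.card_insert_le _ _)
      intro D hD
      obtain ⟨k1, k2, k3⟩ := Finset.mem_filter.1 hD
      by_cases hD1 : D = 1
      · rw [hD1]
        exact Finset.mem_insert_self _ _
      · exact Finset.mem_insert_of_mem (Finset.mem_filter.2 ⟨k1, k2, h D k2.1 hD1 k3⟩)
    have a1 := key Q (fun D => (matD D).det ≠ 0) fun D h h' => (hQ D h h').1
    have a2 := key (fun D => (matD D).det ≠ 0) Q fun D h h' => (hQ D h h').2
    have b1 : (cnt s Q X : ℝ) ≤ cnt s (fun D => (matD D).det ≠ 0) X + 1 := by exact_mod_cast a1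
    have b2 : (cnt s (fun D => (matD D).det ≠ 0) X : ℝ) ≤ cnt s Q X + 1 := by exact_mod_cast a2
    rw [abs_le]
    constructor <;> linarith
  have h2 : Tendsto (fun X : ℕ => ((cnt s Q X : ℝ) - cnt s (fun D => (matD D).det ≠ 0) X) /
      (cnt s (fun _ => True) X : ℝ)) atTop (𝓝 0) := by
    refine squeeze_zero_norm (fun X => ?_) h1
    rw [Real.norm_eq_abs, abs_div, abs_of_nonneg (Nat.cast_nonneg (cnt s (fun _ => True) X) :
      (0 : ℝ) ≤ _)]
    exact div_le_div_of_nonneg_right (hd X) (Nat.cast_nonneg _)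
  have h3 := h0.add h2
  rw [add_zero] at h3
  refine h3.congr fun X => ?_
  rw [← add_div]
  congr 1
  ring

end Pool.Agent.V11291.F9
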