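import Pool.Agent.Y682.YQ.BsdB
import Pool.Agent.Y682.XF.Fin

/-!
# The real period and the group of the torsion points of the twists of `X_0(14)`
-/

set_option autoImplicit false

namespace Pool.Agent.V11291.F9

open Pool.Agent
open Pool.Agent.Y700 (WM Omega tamProd IsL EQ)
open Pool.Agent.Y687.MQ

theorem omega_pos {D : ℤ} (h : D % 4 = 1) : 0 < Omega (WM D) := by
  obtain ⟨s, t, P, Op, Om, hSy, g2, g3, hP⟩ := Pool.Agent.Y682.XF.exists_syP
  rcases lt_trichotomy D 0 with h0 | h0 | h0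
  · rw [Z705.f_OMEGA P Op Om hSy.pos hSy.pos' g2 g3 hP D h h0]
    have h1 : (0 : ℝ) < -(D : ℝ) := by
      have : (D : ℝ) < 0 := by exact_mod_cast h0
      linarith
    exact div_pos (mul_pos two_pos hSy.pos') (Real.sqrt_pos.2 h1)
  · omega
  · rw [Pool.Agent.Y248.BSD14.t P Op Om hSy.pos hSy.pos' g2 g3 hP D h h0]
    have h1 : (0 : ℝ) < (D : ℝ) := by exact_mod_cast h0
    exact div_pos (mul_pos two_pos hSy.pos) (Real.sqrt_pos.2 h1)

theorem tors_two {M : ℤ} (hM4 : M % 4 = 1) :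
    ∃ k : ℕ, Odd k ∧ Nat.card (AddCommGroup.torsion (EQ (WM M)).toAffine.Point) = 2 * k := by
  have hM0 : M ≠ 0 := by omega
  have hM2 : 0 < M ^ 2 := by positivity
  have hab : (13 * M) ^ 2 - 4 * (128 * M ^ 2) < 0 := by nlinarith
  obtain ⟨k, hk, a3⟩ := Pool.Agent.Z702.f_TORS (13 * M) (128 * M ^ 2) (by positivity) hab.ne
    (Pool.Agent.Z702.ns_b hM0) (Pool.Agent.Z702.ns_ab hM0)
  rw [(Pool.Agent.Z702.trn_WM Pool.Agent.Z702.f_TRN hM4).2.2] at a3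
  exact ⟨k, hk, a3⟩

/-- `Ш[2^∞] = 0` if the matrix is nonsingular -/
theorem sha_two {D : ℤ} (h : AdmD D) (hdet : (matD D).det ≠ 0) (n : ℕ)
    (x : Pool.Agent.TH841.SH.D.Sha (EQ (WM D))) (hx : 2 ^ n • x = 0) : x = 0 := by
  have hY := (Pool.Agent.Y682.YQ.yd_iff h).2 hdet
  obtain ⟨hP, hT, hcl, hD⟩ := of_admD h
  have e : (Pool.Agent.Z700.pr (SP D) : ℤ) * Y687.DD (IP D) = D := hD
  have key : ∀ M : ℤ, (Pool.Agent.Z700.pr (SP D) : ℤ) * Y687.DD (IP D) = M →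
      ∀ (n : ℕ) (x : Pool.Agent.TH841.SH.D.Sha (EQ (WM M))), 2 ^ n • x = 0 → x = 0 := by
    rintro M rfl n x hx
    exact Z705.sha_inf Z705.f_SELA Z705.f_SELB (Z705.cnd hP hT) hY n x hx
  exact key D e n x hx

end Pool.Agent.V11291.F9
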